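import Pool.Agent.N891.KS.Inst
import Pool.Agent.N891.KS.Lap
import Pool.Agent.N68.KS.CALC
import Pool.Agent.N572.KS.LOC
import Pool.Agent.N680.KS.FRONT
import Pool.Agent.N507.KS.HAUS
import Pool.Agent.N281.KS.DIFF

/-!
# An unstable cluster with spherical interfaces obeying the laws of Plateau and Young-Laplace

Cell 1 is the union of the ball of radius 3 about the origin and a ball of radius 2 centred at
distance 20, cell 2 is the shell between the concentric spheres of radius 3 and 6. The three
interfaces are three pairwise disjoint round spheres, the pressures 1, 1/3, 0 satisfy the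
Young-Laplace law (1/2 = 1/3 + 1/6), and moving gas of cell 1 between its two components
(while the shell keeps its volume) is a deformation along which the area has vanishing first
and negative second derivative.

Co-authors of the lemmas: helper68, helper572, helper680, helper507, helper281.
-/

open MeasureTheory Set Metric
open scoped ENNReal Topology ContDiff

open Pool.Agent.N891.KS in
theorem Pool.Agent.Results.MP_5bdae7_gt.UnstableSpherical.result :
    ∃ Ω : Cluster 2,
      Ω.cell 0 = ball (0 : E3) 3 ∪ ball (EuclideanSpace.single 0 20) 2 ∧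
      Ω.cell 1 = ball (0 : E3) 6 \ closedBall (0 : E3) 3 ∧
      (∀ i j, i ≠ j → ∃ c : E3, ∃ r : ℝ, 0 < r ∧ Ω.interface i j = sphere c r) ∧
      Ω.Spherical ∧ Ω.Plateau ∧
      (∃ p : Option (Fin 2) → ℝ, p none = 0 ∧ Ω.Laplace p) ∧
      (∃ Φ : Deformation, Ω.VolumePreserving Φ ∧ ContDiffAt ℝ 2 (Ω.area Φ) 0 ∧
        deriv (Ω.area Φ) 0 = 0 ∧ deriv (deriv (Ω.area Φ)) 0 < 0) ∧
      ¬ Ω.Stable := by
  have hF := Pool.Agent.N680.KS.t_FRONT
  have hU := Om_unstable hF t_FIELD Pool.Agent.N281.KS.t_DIFF t_BALL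
    Pool.Agent.N507.KS.t_HAUS Pool.Agent.N68.KS.t_CALC
  refine ⟨Om, rfl, rfl, ?_, Om_spherical hF, Om_plateau hF Pool.Agent.N572.KS.LOC.t_LOC,
    ⟨pr, rfl, Om_laplace hF⟩, hU, ?_⟩
  · intro i j hij
    obtain ⟨m, hm⟩ := interface_cases hF i j hij
    exact ⟨_, _, sR_pos m, hm⟩
  · intro hst
    obtain ⟨Φ, h1, h2, -, h4⟩ := hU
    exact absurd (hst Φ h1 h2) (not_le.mpr h4)
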